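import Mathlib

set_option autoImplicit false

namespace Pool.Agent.H.MP_cfb0df_co

open Finset

variable {V : Type} [Fintype V]

noncomputable def W (g : V → V → V → ℝ) (x y : V) : ℝ := ∑ z, g x y z
noncomputable def dg (g : V → V → V → ℝ) (y : V) : ℝ := ∑ s, W g y s
noncomputable def B (g : V → V → V → ℝ) (w y : V) : ℝ := ∑ a, W g w a * W g a y
noncomputable def T (g : V → V → V → ℝ) (w z : V) : ℝ := ∑ y, W g y z * B g w y
noncomputable def aa (g : V → V → V → ℝ) (w : V) : ℝ :=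
  ∑ x, (∑ y, W g x y * B g w y) * (∑ z, W g x z * T g w z)
noncomputable def bb (g : V → V → V → ℝ) (w : V) : ℝ := ∑ y, dg g y * (B g w y * B g w y)

structure Sym (g : V → V → V → ℝ) : Prop where
  nn : ∀ x y z, 0 ≤ g x y z
  s1 : ∀ x y z, g x y z = g y x z
  s2 : ∀ x y z, g x y z = g x z y

variable {g : V → V → V → ℝ}

lemma W_nn (h : Sym g) (x y : V) : 0 ≤ W g x y := sum_nonneg fun z _ => h.nn x y z
lemma W_sym (h : Sym g) (x y : V) : W g x y = W g y x := sum_congr rfl fun z _ => h.s1 x y z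
lemma dg_nn (h : Sym g) (y : V) : 0 ≤ dg g y := sum_nonneg fun s _ => W_nn h y s
lemma B_nn (h : Sym g) (w y : V) : 0 ≤ B g w y :=
  sum_nonneg fun _ _ => mul_nonneg (W_nn h _ _) (W_nn h _ _)
lemma T_nn (h : Sym g) (w z : V) : 0 ≤ T g w z :=
  sum_nonneg fun _ _ => mul_nonneg (W_nn h _ _) (B_nn h _ _)
lemma bb_nn (h : Sym g) (w : V) : 0 ≤ bb g w :=
  sum_nonneg fun _ _ => mul_nonneg (dg_nn h _) (mul_nonneg (B_nn h _ _) (B_nn h _ _))

lemma sq_sum_le (f : V → ℝ) : (∑ x, f x) ^ 2 ≤ (Fintype.card V : ℝ) * ∑ x, f x ^ 2 := by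
  have := sq_sum_le_card_mul_sum_sq (s := (univ : Finset V)) (f := f)
  simpa using this

noncomputable def S (g : V → V → V → ℝ) (w : V) : ℝ :=
  ∑ p : V × V, W g p.1 p.2 * √(B g w p.1 * T g w p.2)

lemma step1 (h : Sym g) (w : V) : S g w ^ 2 ≤ (Fintype.card V : ℝ) * aa g w := by
  have e1 : S g w = ∑ x, ∑ p : V × V, g x p.1 p.2 * √(B g w p.1 * T g w p.2) := by
    rw [sum_comm]
    refine sum_congr rfl fun p _ => ?_
    rw [W, sum_mul]
    refine sum_congr rfl fun x _ => ?_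
    rw [h.s2 p.1 p.2 x, h.s1 p.1 x p.2]
  rw [e1]
  refine (sq_sum_le _).trans (mul_le_mul_of_nonneg_left (sum_le_sum fun x _ => ?_) (by positivity))
  have e2 : ∑ y, W g x y * B g w y = ∑ p : V × V, g x p.1 p.2 * B g w p.1 := by
    rw [Fintype.sum_prod_type]
    refine sum_congr rfl fun y _ => ?_
    rw [W, sum_mul]
  have e3 : ∑ z, W g x z * T g w z = ∑ p : V × V, g x p.1 p.2 * T g w p.2 := by
    rw [Fintype.sum_prod_type_right]
    refine sum_congr rfl fun z _ => ?_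
    rw [W, sum_mul]
    refine sum_congr rfl fun y _ => ?_
    rw [h.s2 x z y]
  rw [e2, e3]
  refine sum_sq_le_sum_mul_sum_of_sq_le_mul _ (fun p _ => mul_nonneg (h.nn _ _ _) (B_nn h _ _))
    (fun p _ => mul_nonneg (h.nn _ _ _) (T_nn h _ _)) fun p _ => ?_
  rw [mul_pow, Real.sq_sqrt (mul_nonneg (B_nn h _ _) (T_nn h _ _))]
  apply le_of_eq; ring

lemma T_ge (h : Sym g) (w y z : V) : W g y z * B g w y ≤ T g w z :=
  single_le_sum (f := fun y => W g y z * B g w y)
    (fun _ _ => mul_nonneg (W_nn h _ _) (B_nn h _ _)) (mem_univ y)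

lemma step2 (h : Sym g) (w : V) :
    (∑ z, T g w z) ^ 4 ≤ S g w ^ 2 * (bb g w * (Fintype.card V : ℝ)) := by
  set Q : ℝ := ∑ p : V × V, W g p.1 p.2 * B g w p.1 * √(B g w p.1 / T g w p.2) with hQ
  have e0 : ∑ z, T g w z = ∑ p : V × V, W g p.1 p.2 * B g w p.1 := by
    rw [Fintype.sum_prod_type_right]; rfl
  have c1 : (∑ z, T g w z) ^ 2 ≤ S g w * Q := by
    rw [e0]
    refine sum_sq_le_sum_mul_sum_of_sq_le_mul _
      (fun p _ => mul_nonneg (W_nn h _ _) (Real.sqrt_nonneg _))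
      (fun p _ => mul_nonneg (mul_nonneg (W_nn h _ _) (B_nn h _ _)) (Real.sqrt_nonneg _))
      fun p _ => ?_
    rcases (T_nn h w p.2).eq_or_lt with h0 | h0
    · have h1 := T_ge h w p.1 p.2
      have h2 : W g p.1 p.2 * B g w p.1 = 0 :=
        le_antisymm (by linarith) (mul_nonneg (W_nn h _ _) (B_nn h _ _))
      rw [h2]; simp
    · have hb := B_nn h w p.1
      have e : √(B g w p.1 * T g w p.2) * √(B g w p.1 / T g w p.2) = B g w p.1 := by
        rw [← Real.sqrt_mul (mul_nonneg hb h0.le)]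
        have : B g w p.1 * T g w p.2 * (B g w p.1 / T g w p.2) = B g w p.1 ^ 2 := by
          field_simp
        rw [this, Real.sqrt_sq hb]
      apply le_of_eq
      calc (W g p.1 p.2 * B g w p.1) ^ 2
          = W g p.1 p.2 * W g p.1 p.2 * B g w p.1 * B g w p.1 := by ring
        _ = W g p.1 p.2 * W g p.1 p.2 * B g w p.1 *
            (√(B g w p.1 * T g w p.2) * √(B g w p.1 / T g w p.2)) := by rw [e]
        _ = _ := by ring
  have c2 : Q ^ 2 ≤ bb g w * (Fintype.card V : ℝ) := by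
    have e1 : bb g w = ∑ p : V × V, W g p.1 p.2 * B g w p.1 * B g w p.1 := by
      rw [Fintype.sum_prod_type]
      refine sum_congr rfl fun y _ => ?_
      rw [dg, sum_mul]
      refine sum_congr rfl fun z _ => ?_
      ring
    have e2 : ∑ p : V × V, W g p.1 p.2 * B g w p.1 / T g w p.2 ≤ (Fintype.card V : ℝ) := by
      rw [Fintype.sum_prod_type_right]
      have : ∀ z, ∑ y, W g y z * B g w y / T g w z ≤ 1 := by
        intro z
        rw [← sum_div]
        exact div_self_le_one _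
      calc _ ≤ ∑ _z : V, (1 : ℝ) := sum_le_sum fun z _ => this z
        _ = _ := by simp
    refine le_trans ?_ (mul_le_mul_of_nonneg_left e2 (bb_nn h w))
    rw [e1]
    refine sum_sq_le_sum_mul_sum_of_sq_le_mul _
      (fun p _ => mul_nonneg (mul_nonneg (W_nn h _ _) (B_nn h _ _)) (B_nn h _ _))
      (fun p _ => div_nonneg (mul_nonneg (W_nn h _ _) (B_nn h _ _)) (T_nn h _ _))
      fun p _ => ?_
    rw [mul_pow, Real.sq_sqrt (div_nonneg (B_nn h _ _) (T_nn h _ _))]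
    apply le_of_eq; ring
  have hS : 0 ≤ S g w := sum_nonneg fun p _ => mul_nonneg (W_nn h _ _) (Real.sqrt_nonneg _)
  have hN : 0 ≤ ∑ z, T g w z := sum_nonneg fun z _ => T_nn h _ _
  calc (∑ z, T g w z) ^ 4 = ((∑ z, T g w z) ^ 2) ^ 2 := by ring
    _ ≤ (S g w * Q) ^ 2 := pow_le_pow_left₀ (by positivity) c1 2
    _ = S g w ^ 2 * Q ^ 2 := by ring
    _ ≤ _ := mul_le_mul_of_nonneg_left c2 (by positivity)

lemma step3 (h : Sym g) :
    (∑ y, dg g y) ^ 3 ≤ (Fintype.card V : ℝ) ^ 2 * ∑ w, ∑ z, T g w z := by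
  set n : ℝ := (Fintype.card V : ℝ) with hn
  have hn0 : 0 ≤ n := by positivity
  set E : ℝ := ∑ y, dg g y with hE
  have eE : E = ∑ p : V × V, W g p.1 p.2 := by rw [Fintype.sum_prod_type]; rfl
  have eP : ∑ w, ∑ z, T g w z = ∑ p : V × V, W g p.1 p.2 * (dg g p.1 * dg g p.2) := by
    rw [Fintype.sum_prod_type]
    simp only [T, B, dg, mul_sum, sum_mul]
    calc ∑ w, ∑ z, ∑ y, ∑ a, W g y z * (W g w a * W g a y)
        = ∑ w, ∑ y, ∑ a, ∑ z, W g y z * (W g w a * W g a y) := by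
          refine sum_congr rfl fun w _ => ?_
          rw [sum_comm]
          refine sum_congr rfl fun y _ => ?_
          rw [sum_comm]
      _ = ∑ y, ∑ a, ∑ w, ∑ z, W g y z * (W g w a * W g a y) := by
          rw [sum_comm]
          refine sum_congr rfl fun y _ => ?_
          rw [sum_comm]
      _ = _ := by
          refine sum_congr rfl fun y _ => sum_congr rfl fun a _ => sum_congr rfl fun w _ =>
            sum_congr rfl fun z _ => ?_
          rw [W_sym h w a, W_sym h a y]; ring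
  set P : ℝ := ∑ p : V × V, W g p.1 p.2 * (dg g p.1 * dg g p.2) with hP
  rw [eP]
  set Q : ℝ := ∑ p : V × V, W g p.1 p.2 * √(dg g p.1 * dg g p.2) with hQ
  have hW1 : ∀ x y, W g x y ≤ dg g x := fun x y =>
    single_le_sum (f := fun y => W g x y) (fun _ _ => W_nn h _ _) (mem_univ y)
  have c1 : Q ^ 2 ≤ E * P := by
    rw [eE]
    refine sum_sq_le_sum_mul_sum_of_sq_le_mul _ (fun p _ => W_nn h _ _)
      (fun p _ => mul_nonneg (W_nn h _ _) (mul_nonneg (dg_nn h _) (dg_nn h _))) fun p _ => ?_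
    rw [mul_pow, Real.sq_sqrt (mul_nonneg (dg_nn h _) (dg_nn h _))]
    apply le_of_eq; ring
  have c3 : ∑ p : V × V, W g p.1 p.2 / dg g p.1 ≤ n := by
    rw [Fintype.sum_prod_type]
    have : ∀ x, ∑ y, W g x y / dg g x ≤ 1 := by
      intro x
      rw [← sum_div]
      exact div_self_le_one _
    calc _ ≤ ∑ _z : V, (1 : ℝ) := sum_le_sum fun z _ => this z
      _ = _ := by simp [hn]
  have c4 : ∑ p : V × V, W g p.1 p.2 / dg g p.2 ≤ n := by
    rw [Fintype.sum_prod_type_right]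
    have : ∀ x, ∑ y, W g y x / dg g x ≤ 1 := by
      intro x
      rw [← sum_div, sum_congr rfl fun y _ => W_sym h y x]
      exact div_self_le_one _
    calc _ ≤ ∑ _z : V, (1 : ℝ) := sum_le_sum fun z _ => this z
      _ = _ := by simp [hn]
  set R : ℝ := ∑ p : V × V, W g p.1 p.2 * √(1 / dg g p.1 * (1 / dg g p.2)) with hR
  have c5 : R ^ 2 ≤ n * n := by
    refine le_trans ?_ (mul_le_mul c3 c4 (sum_nonneg fun p _ => div_nonneg (W_nn h _ _) (dg_nn h _)) hn0)
    refine sum_sq_le_sum_mul_sum_of_sq_le_mul _ (fun p _ => div_nonneg (W_nn h _ _) (dg_nn h _))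
      (fun p _ => div_nonneg (W_nn h _ _) (dg_nn h _)) fun p _ => ?_
    rw [mul_pow, Real.sq_sqrt (mul_nonneg (one_div_nonneg.2 (dg_nn h _)) (one_div_nonneg.2 (dg_nn h _)))]
    apply le_of_eq; ring
  have c2 : E ^ 2 ≤ Q * R := by
    rw [eE]
    refine sum_sq_le_sum_mul_sum_of_sq_le_mul _
      (fun p _ => mul_nonneg (W_nn h _ _) (Real.sqrt_nonneg _))
      (fun p _ => mul_nonneg (W_nn h _ _) (Real.sqrt_nonneg _)) fun p _ => ?_
    rcases (W_nn h p.1 p.2).eq_or_lt with h0 | h0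
    · rw [← h0]; simp
    · have d1 : 0 < dg g p.1 := h0.trans_le (hW1 _ _)
      have d2 : 0 < dg g p.2 := h0.trans_le (by rw [W_sym h]; exact hW1 _ _)
      have e : √(dg g p.1 * dg g p.2) * √(1 / dg g p.1 * (1 / dg g p.2)) = 1 := by
        rw [← Real.sqrt_mul (mul_nonneg d1.le d2.le)]
        have : dg g p.1 * dg g p.2 * (1 / dg g p.1 * (1 / dg g p.2)) = 1 := by field_simp
        rw [this, Real.sqrt_one]
      apply le_of_eq
      calc W g p.1 p.2 ^ 2 = W g p.1 p.2 ^ 2 *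
            (√(dg g p.1 * dg g p.2) * √(1 / dg g p.1 * (1 / dg g p.2))) := by rw [e, mul_one]
        _ = _ := by ring
  have hE0 : 0 ≤ E := sum_nonneg fun y _ => dg_nn h y
  have hP0 : 0 ≤ P := sum_nonneg fun p _ =>
    mul_nonneg (W_nn h _ _) (mul_nonneg (dg_nn h _) (dg_nn h _))
  rcases hE0.eq_or_lt with h0 | h0
  · rw [← h0]; have := mul_nonneg (sq_nonneg n) hP0; simpa using this
  · have c6 : E * E ^ 3 ≤ E * (n ^ 2 * P) := by
      calc E * E ^ 3 = (E ^ 2) ^ 2 := by ring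
        _ ≤ (Q * R) ^ 2 := pow_le_pow_left₀ (by positivity) c2 2
        _ = Q ^ 2 * R ^ 2 := by ring
        _ ≤ (E * P) * (n * n) := mul_le_mul c1 c5 (by positivity) (by positivity)
        _ = _ := by ring
    exact le_of_mul_le_mul_left c6 h0

theorem main (h : Sym g) :
    (∑ y, dg g y) ^ 12 ≤ (Fintype.card V : ℝ) ^ 13 * ∑ w, aa g w * bb g w := by
  set n : ℝ := (Fintype.card V : ℝ) with hn
  have hn0 : 0 ≤ n := by positivity
  have hE0 : 0 ≤ ∑ y, dg g y := sum_nonneg fun y _ => dg_nn h y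
  have h1 : ∀ w, (∑ z, T g w z) ^ 4 ≤ n ^ 2 * (aa g w * bb g w) := by
    intro w
    calc _ ≤ S g w ^ 2 * (bb g w * n) := step2 h w
      _ ≤ (n * aa g w) * (bb g w * n) :=
          mul_le_mul_of_nonneg_right (step1 h w) (mul_nonneg (bb_nn h w) hn0)
      _ = _ := by ring
  have h2 : (∑ w, ∑ z, T g w z) ^ 4 ≤ n ^ 3 * ∑ w, (∑ z, T g w z) ^ 4 := by
    have a1 := sq_sum_le fun w => ∑ z, T g w z
    have a2 := sq_sum_le fun w => (∑ z, T g w z) ^ 2
    calc (∑ w, ∑ z, T g w z) ^ 4 = ((∑ w, ∑ z, T g w z) ^ 2) ^ 2 := by ring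
      _ ≤ (n * ∑ w, (∑ z, T g w z) ^ 2) ^ 2 := pow_le_pow_left₀ (by positivity) a1 2
      _ = n ^ 2 * (∑ w, (∑ z, T g w z) ^ 2) ^ 2 := by ring
      _ ≤ n ^ 2 * (n * ∑ w, ((∑ z, T g w z) ^ 2) ^ 2) :=
          mul_le_mul_of_nonneg_left a2 (by positivity)
      _ = _ := by
          rw [sum_congr rfl fun w _ => (show ((∑ z, T g w z) ^ 2) ^ 2 = (∑ z, T g w z) ^ 4 by ring)]
          ring
  calc (∑ y, dg g y) ^ 12 = ((∑ y, dg g y) ^ 3) ^ 4 := by ring
    _ ≤ (n ^ 2 * ∑ w, ∑ z, T g w z) ^ 4 := pow_le_pow_left₀ (by positivity) (step3 h) 4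
    _ = n ^ 8 * (∑ w, ∑ z, T g w z) ^ 4 := by ring
    _ ≤ n ^ 8 * (n ^ 3 * ∑ w, (∑ z, T g w z) ^ 4) := mul_le_mul_of_nonneg_left h2 (by positivity)
    _ ≤ n ^ 8 * (n ^ 3 * ∑ w, n ^ 2 * (aa g w * bb g w)) :=
        mul_le_mul_of_nonneg_left (mul_le_mul_of_nonneg_left (sum_le_sum fun w _ => h1 w)
          (by positivity)) (by positivity)
    _ = _ := by rw [← mul_sum]; ring

def eu : Fin 12 → Fin 11 := ![5, 0, 10, 5, 7, 0, 8, 1, 0, 3, 0, 2]
def ev : Fin 12 → Fin 11 := ![9, 10, 9, 6, 6, 8, 7, 4, 3, 1, 2, 1]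

lemma sum_cons {k : ℕ} (F : (Fin (k + 1) → V) → ℝ) :
    ∑ f, F f = ∑ x, ∑ f : Fin k → V, F (Fin.cons x f) := by
  rw [← Fintype.sum_prod_type' (fun (x : V) (f : Fin k → V) => F (Fin.cons x f))]
  exact (Fintype.sum_equiv (Fin.consEquiv fun _ => V) _ _ fun _ => rfl).symm

lemma expand (g : V → V → V → ℝ) :
    ∑ φ : Fin 11 → V, ∏ i, W g (φ (eu i)) (φ (ev i)) = ∑ w, aa g w * bb g w := by
  simp only [aa, bb, T, B, dg, sum_mul, mul_sum]
  rw [sum_cons]
  refine sum_congr rfl fun x0 _ => ?_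
  rw [sum_cons]
  refine sum_congr rfl fun x1 _ => ?_
  rw [sum_cons]
  refine sum_congr rfl fun x2 _ => ?_
  rw [sum_cons]
  refine sum_congr rfl fun x3 _ => ?_
  rw [sum_cons]
  refine sum_congr rfl fun x4 _ => ?_
  rw [sum_cons]
  refine sum_congr rfl fun x5 _ => ?_
  rw [sum_cons]
  refine sum_congr rfl fun x6 _ => ?_
  rw [sum_cons]
  refine sum_congr rfl fun x7 _ => ?_
  rw [sum_cons]
  refine sum_congr rfl fun x8 _ => ?_
  rw [sum_cons]
  refine sum_congr rfl fun x9 _ => ?_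
  rw [sum_cons]
  refine sum_congr rfl fun x10 _ => ?_
  rw [Fintype.sum_unique]
  simp only [Fin.prod_univ_succ, Fin.prod_univ_zero]
  show W g x5 x9 * (W g x0 x10 * (W g x10 x9 * (W g x5 x6 * (W g x7 x6 * (W g x0 x8 *
    (W g x8 x7 * (W g x1 x4 * (W g x0 x3 * (W g x3 x1 * (W g x0 x2 * (W g x2 x1 * 1))))))))))) = _
  ring

lemma expand2 [DecidableEq V] (g : V → V → V → ℝ) :
    ∑ f : Fin 11 ⊕ (Fin 12 × Fin (3 - 2)) → V,
      ∏ i, g (f (Sum.inl (eu i))) (f (Sum.inl (ev i))) (f (Sum.inr (i, (0 : Fin 1)))) =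
      ∑ w, aa g w * bb g w := by
  rw [← expand]
  rw [← (Equiv.sumArrowEquivProdArrow (Fin 11) (Fin 12 × Fin (3 - 2)) V).symm.sum_comp,
    Fintype.sum_prod_type]
  refine sum_congr rfl fun φ _ => ?_
  simp only [W]
  rw [prod_univ_sum, Fintype.piFinset_univ]
  let e : (Fin 12 × Fin (3 - 2) → V) ≃ (Fin 12 → V) :=
    Equiv.arrowCongr (Equiv.prodUnique (Fin 12) (Fin 1)) (Equiv.refl V)
  rw [← e.sum_comp]
  refine sum_congr rfl fun ψ _ => prod_congr rfl fun i _ => ?_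
  rfl

noncomputable def ind [DecidableEq V] (G : Finset (Finset V)) (x y z : V) : ℝ :=
  if ({x, y, z} : Finset V) ∈ G then 1 else 0

omit [Fintype V] in
lemma ind_sym [DecidableEq V] (G : Finset (Finset V)) : Sym (ind G) where
  nn x y z := by unfold ind; split_ifs <;> norm_num
  s1 x y z := by unfold ind; rw [Finset.insert_comm]
  s2 x y z := by unfold ind; rw [Finset.pair_comm]

lemma six [DecidableEq V] (G : Finset (Finset V)) (hG : ∀ s ∈ G, s.card = 3) :
    ((6 * G.card : ℕ) : ℝ) ≤ ∑ y, dg (ind G) y := by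
  have e1 : ∑ y, dg (ind G) y =
      ((univ.filter fun p : V × V × V => ({p.1, p.2.1, p.2.2} : Finset V) ∈ G).card : ℝ) := by
    rw [card_filter, Nat.cast_sum, Fintype.sum_prod_type]
    refine sum_congr rfl fun x _ => ?_
    rw [Fintype.sum_prod_type]
    refine sum_congr rfl fun y _ => sum_congr rfl fun z _ => ?_
    unfold ind; split_ifs <;> simp
  rw [e1, Nat.cast_le]
  refine mul_card_image_le_card_of_maps_to (t := G)
    (f := fun p : V × V × V => ({p.1, p.2.1, p.2.2} : Finset V)) (fun p hp => (mem_filter.1 hp).2) 6 ?_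
  intro s hs
  obtain ⟨a, b, c, hab, hac, hbc, rfl⟩ := card_eq_three.1 (hG s hs)
  have h6 : ({(a, b, c), (a, c, b), (b, a, c), (b, c, a), (c, a, b), (c, b, a)} :
      Finset (V × V × V)).card = 6 := by
    have hba := hab.symm
    have hca := hac.symm
    have hcb := hbc.symm
    rw [card_insert_of_notMem, card_insert_of_notMem, card_insert_of_notMem, card_insert_of_notMem,
      card_insert_of_notMem, card_singleton] <;> simp [*]
  rw [← h6]
  refine card_le_card fun p hp => ?_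
  simp only [mem_insert, mem_singleton] at hp
  have k : ∀ x y z : V, ({x, y, z} : Finset V) = {a, b, c} →
      (x, y, z) ∈ (univ.filter fun p : V × V × V => ({p.1, p.2.1, p.2.2} : Finset V) ∈ G).filter
        fun p : V × V × V => ({p.1, p.2.1, p.2.2} : Finset V) = {a, b, c} := by
    intro x y z h
    refine mem_filter.2 ⟨mem_filter.2 ⟨mem_univ _, ?_⟩, h⟩
    show ({x, y, z} : Finset V) ∈ G
    rw [h]; exact hs
  rcases hp with rfl | rfl | rfl | rfl | rfl | rfl <;> refine k _ _ _ ?_ <;> ext t <;>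
    simp only [mem_insert, mem_singleton] <;> tauto

end Pool.Agent.H.MP_cfb0df_co
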